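import Pool.Agent.H37.S3.CI

/-!
# Two telescopes

Contexts `β i j` on a grid: `i` numbers the windows, `j` the scales of the velocity. `V j` are the
digits of the velocities at the scale `j`, one variable for all windows; `S` are the times (of all
copies), one variable. For most `(i, j)` the block is almost independent of `(V j, S)` given
`β i j`.
-/

set_option autoImplicit false

namespace Pool.LIVE20

open Finset
open Pool.Agent.H49.Ent Pool.Agent.H32.Dense Pool.STK Pool.KS3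

section

variable {Ω 𝒱 𝒮 : Type} [Fintype Ω] {p : Ω → ℝ}

/-- The mutual information of `A` and `K` given `B`. -/
noncomputable def mi {A K B : Type} (p : Ω → ℝ) (a : Ω → A) (k : Ω → K) (b : Ω → B) : ℝ :=
  CH p a b - CH p a (fun ω => (k ω, b ω))

theorem mi_nonneg (hp : ∀ ω, 0 ≤ p ω) {A K B : Type} (a : Ω → A) (k : Ω → K) (b : Ω → B) :
    0 ≤ mi p a k b :=
  sub_nonneg.2 (CH_mono_cond hp fun _ _ _ _ h => (Prod.ext_iff.mp h).2)

/-- One telescope. -/
theorem tel (hp : ∀ ω, 0 ≤ p ω) (v : Ω → 𝒱) (n : ℕ) {B K : ℕ → Type} (β : ∀ j, Ω → B j)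
    (k : ∀ j, Ω → K j) (hn : ∀ j < n, Det p (β (j + 1)) (fun ω => (k j ω, β j ω))) :
    ∑ j ∈ range n, mi p v (k j) (β j) ≤ CH p v (β 0) - CH p v (β n) := by
  induction n with
  | zero => simp
  | succ n ih =>
    rw [Finset.sum_range_succ]
    have h1 := ih fun j hj => hn j (by omega)
    have h2 : CH p v (β (n + 1)) ≤ CH p v (fun ω => (k n ω, β n ω)) :=
      CH_mono_cond hp (hn n (by omega))
    unfold mi at h1 ⊢
    linarith

theorem CH_swapc (hp : ∀ ω, 0 ≤ p ω) {A K B : Type} (a : Ω → A) (k : Ω → K) (b : Ω → B) :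
    CH p a (fun ω => (k ω, b ω)) = CH p a (fun ω => (b ω, k ω)) :=
  CH_congr hp (fun _ _ _ _ h => (Prod.ext_iff.mp h).1) (fun _ _ _ _ h => (Prod.ext_iff.mp h).1)
    (fun ω ω' _ _ h => Prod.ext (Prod.ext_iff.mp h).2 (Prod.ext_iff.mp h).1)
    (fun ω ω' _ _ h => Prod.ext (Prod.ext_iff.mp h).2 (Prod.ext_iff.mp h).1)

theorem CH_swap (hp : ∀ ω, 0 ≤ p ω) {A A' B : Type} (a : Ω → A) (a' : Ω → A') (b : Ω → B) :
    CH p (fun ω => (a ω, a' ω)) b = CH p (fun ω => (a' ω, a ω)) b :=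
  CH_congr hp (fun ω ω' _ _ h => Prod.ext (Prod.ext_iff.mp (Prod.ext_iff.mp h).1).2
      (Prod.ext_iff.mp (Prod.ext_iff.mp h).1).1)
    (fun ω ω' _ _ h => Prod.ext (Prod.ext_iff.mp (Prod.ext_iff.mp h).1).2
      (Prod.ext_iff.mp (Prod.ext_iff.mp h).1).1) (fun _ _ _ _ h => h) (fun _ _ _ _ h => h)

/-- Chain rule. -/
theorem mi_pair (hp : ∀ ω, 0 ≤ p ω) {A A' K B : Type} (a : Ω → A) (a' : Ω → A') (k : Ω → K)
    (b : Ω → B) : mi p (fun ω => (a ω, a' ω)) k b = mi p a k b + mi p a' k (fun ω => (b ω, a ω)) := by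
  unfold mi
  rw [CH_swap hp a a' b, CH_swap hp a a' (fun ω => (k ω, b ω)), CH_chain hp a' a b,
    CH_chain hp a' a (fun ω => (k ω, b ω)), CH_swapc hp a' a b]
  have e2 : CH p a' (fun ω => (a ω, (k ω, b ω))) = CH p a' (fun ω => (k ω, (b ω, a ω))) :=
    CH_congr hp (fun _ _ _ _ h => (Prod.ext_iff.mp h).1) (fun _ _ _ _ h => (Prod.ext_iff.mp h).1)
      (fun ω ω' _ _ h => by
        simp only [Prod.mk.injEq] at h ⊢
        tauto) (fun ω ω' _ _ h => by
        simp only [Prod.mk.injEq] at h ⊢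
        tauto)
  rw [e2]
  ring

/-- **Two telescopes.** -/
theorem two_tel (hp : ∀ ω, 0 ≤ p ω) (M N : ℕ) {B K : ℕ → ℕ → Type} {𝒱 : ℕ → Type}
    (β : ∀ i j, Ω → B i j) (k : ∀ i j, Ω → K i j) (v : ∀ j, Ω → 𝒱 j) (s : Ω → 𝒮) {h₁ h₂ : ℝ}
    (n1 : ∀ j < N, ∀ i < M, Det p (β (i + 1) j) (fun ω => (k i j ω, β i j ω)))
    (n2 : ∀ i < M, ∀ j < N, Det p (fun ω => (β i (j + 1) ω, v (j + 1) ω))
      (fun ω => (k i j ω, (β i j ω, v j ω))))
    (b1 : ∀ j < N, CH p (v j) (β 0 j) - CH p (v j) (β M j) ≤ h₁)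
    (b2 : ∀ i < M, CH p s (fun ω => (β i 0 ω, v 0 ω)) -
      CH p s (fun ω => (β i N ω, v N ω)) ≤ h₂) :
    ∑ i ∈ range M, ∑ j ∈ range N, mi p (fun ω => (v j ω, s ω)) (k i j) (β i j) ≤
      N * h₁ + M * h₂ := by
  have e1 : ∑ i ∈ range M, ∑ j ∈ range N, mi p (fun ω => (v j ω, s ω)) (k i j) (β i j) =
      ∑ j ∈ range N, ∑ i ∈ range M, mi p (v j) (k i j) (β i j) +
        ∑ i ∈ range M, ∑ j ∈ range N, mi p s (k i j) (fun ω => (β i j ω, v j ω)) := by
    rw [Finset.sum_comm (s := range N), ← Finset.sum_add_distrib]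
    refine Finset.sum_congr rfl fun i _ => ?_
    rw [← Finset.sum_add_distrib]
    exact Finset.sum_congr rfl fun j _ => mi_pair hp _ _ _ _
  rw [e1]
  refine add_le_add ?_ ?_
  · calc ∑ j ∈ range N, ∑ i ∈ range M, mi p (v j) (k i j) (β i j)
        ≤ ∑ _j ∈ range N, h₁ := by
          refine Finset.sum_le_sum fun j hj => ?_
          have hj' := Finset.mem_range.1 hj
          exact (tel hp (v j) M (fun i => β i j) (fun i => k i j) (n1 j hj')).trans (b1 j hj')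
      _ = N * h₁ := by rw [Finset.sum_const, Finset.card_range, nsmul_eq_mul]
  · calc ∑ i ∈ range M, ∑ j ∈ range N, mi p s (k i j) (fun ω => (β i j ω, v j ω))
        ≤ ∑ _i ∈ range M, h₂ := by
          refine Finset.sum_le_sum fun i hi => ?_
          have hi' := Finset.mem_range.1 hi
          exact (tel hp s N (fun j => fun ω => (β i j ω, v j ω)) (fun j => k i j) (n2 i hi')).trans
            (b2 i hi')
      _ = M * h₂ := by rw [Finset.sum_const, Finset.card_range, nsmul_eq_mul]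

open Classical in
/-- **Two telescopes, most points.** -/
theorem two_tel_most (hp : ∀ ω, 0 ≤ p ω) (M N : ℕ) {B K : ℕ → ℕ → Type} {𝒱 : ℕ → Type}
    (β : ∀ i j, Ω → B i j) (k : ∀ i j, Ω → K i j) (v : ∀ j, Ω → 𝒱 j) (s : Ω → 𝒮) {h₁ h₂ : ℝ}
    (n1 : ∀ j < N, ∀ i < M, Det p (β (i + 1) j) (fun ω => (k i j ω, β i j ω)))
    (n2 : ∀ i < M, ∀ j < N, Det p (fun ω => (β i (j + 1) ω, v (j + 1) ω))
      (fun ω => (k i j ω, (β i j ω, v j ω))))
    (b1 : ∀ j < N, CH p (v j) (β 0 j) - CH p (v j) (β M j) ≤ h₁)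
    (b2 : ∀ i < M, CH p s (fun ω => (β i 0 ω, v 0 ω)) -
      CH p s (fun ω => (β i N ω, v N ω)) ≤ h₂) {z : ℝ} :
    (((range M ×ˢ range N).filter fun x => z < mi p (fun ω => (v x.2 ω, s ω)) (k x.1 x.2)
      (β x.1 x.2)).card : ℝ) * z ≤ N * h₁ + M * h₂ := by
  have h := two_tel hp M N β k v s n1 n2 b1 b2
  rw [← Finset.sum_product' (f := fun i j => mi p (fun ω => (v j ω, s ω)) (k i j) (β i j))] at h
  refine le_trans ?_ h
  calc (((range M ×ˢ range N).filter fun x => z < mi p (fun ω => (v x.2 ω, s ω)) (k x.1 x.2)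
        (β x.1 x.2)).card : ℝ) * z
      = ∑ _x ∈ (range M ×ˢ range N).filter fun x => z < mi p (fun ω => (v x.2 ω, s ω))
        (k x.1 x.2) (β x.1 x.2), z := by
        rw [Finset.sum_const, nsmul_eq_mul]
    _ ≤ ∑ x ∈ (range M ×ˢ range N).filter fun x => z < mi p (fun ω => (v x.2 ω, s ω))
        (k x.1 x.2) (β x.1 x.2), mi p (fun ω => (v x.2 ω, s ω)) (k x.1 x.2) (β x.1 x.2) :=
        Finset.sum_le_sum fun x hx => (Finset.mem_filter.1 hx).2.le
    _ ≤ _ := Finset.sum_le_sum_of_subset_of_nonneg (Finset.filter_subset _ _)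
        fun x _ _ => mi_nonneg hp _ _ _

/-! ### Telescopes with steps -/

/-- A telescope with steps of length `b`. -/
theorem tel_step (hp : ∀ ω, 0 ≤ p ω) (v : Ω → 𝒱) (M b : ℕ) {B K : ℕ → Type} (β : ∀ j, Ω → B j)
    (k : ∀ j, Ω → K j) (hn : ∀ j < M, Det p (β (j + b)) (k j)) {h : ℝ}
    (hb : ∀ j < b, CH p v (β j) ≤ h) :
    ∑ j ∈ range M, (CH p v (β j) - CH p v (k j)) ≤ b * h := by
  have h1 : ∑ j ∈ range M, (CH p v (β j) - CH p v (k j)) ≤
      ∑ j ∈ range M, (CH p v (β j) - CH p v (β (j + b))) :=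
    Finset.sum_le_sum fun j hj => by
      have := CH_mono_cond hp (X := v) (hn j (Finset.mem_range.1 hj))
      linarith
  have h2 : ∀ n : ℕ, ∑ j ∈ range n, (CH p v (β j) - CH p v (β (j + b))) =
      ∑ j ∈ range b, CH p v (β j) - ∑ j ∈ range b, CH p v (β (n + j)) := by
    intro n
    induction n with
    | zero =>
      have e0 : ∑ j ∈ range b, CH p v (β (0 + j)) = ∑ j ∈ range b, CH p v (β j) :=
        Finset.sum_congr rfl fun j _ => by rw [Nat.zero_add]
      rw [e0, Finset.range_zero, Finset.sum_empty, sub_self]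
    | succ n ih =>
      rw [Finset.sum_range_succ, ih]
      have e1 : ∑ j ∈ range b, CH p v (β (n + 1 + j)) =
          ∑ j ∈ range b, CH p v (β (n + j)) + CH p v (β (n + b)) - CH p v (β (n + 0)) := by
        have e2 := Finset.sum_range_succ (fun j => CH p v (β (n + j))) b
        have e3 := Finset.sum_range_succ' (fun j => CH p v (β (n + j))) b
        have e4 : ∑ j ∈ range b, CH p v (β (n + 1 + j)) =
            ∑ j ∈ range b, CH p v (β (n + (j + 1))) :=
          Finset.sum_congr rfl fun j _ => by rw [show n + 1 + j = n + (j + 1) by omega]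
        linarith
      rw [e1, add_zero]
      ring
  have h3 : 0 ≤ ∑ j ∈ range b, CH p v (β (M + j)) :=
    Finset.sum_nonneg fun j _ => CH_nonneg hp _ _
  have h4 : ∑ j ∈ range b, CH p v (β j) ≤ b * h := by
    calc ∑ j ∈ range b, CH p v (β j) ≤ ∑ _j ∈ range b, h :=
          Finset.sum_le_sum fun j hj => hb j (Finset.mem_range.1 hj)
      _ = b * h := by rw [Finset.sum_const, Finset.card_range, nsmul_eq_mul]
  refine h1.trans ?_
  rw [h2 M]
  linarith

open Classical in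
/-- **The two telescopes of the live core.** `β w q`: the record; `bk w q`: the record of the next
block; `V q`: the velocities, one variable for all windows; `g w q`: the line block; `tm w`: the
digits of the time. Outside a set of points `(w, q)` of the grid of cardinality at most
`(N b h₁ + M b' h₂) / z` both informations are at most `z`. -/
theorem ind_tim (hp : ∀ ω, 0 ≤ p ω) (M N b b' : ℕ) {B K G : ℕ → ℕ → Type} {𝒱 𝒯 : ℕ → Type}
    (β : ∀ w q, Ω → B w q) (bk : ∀ w q, Ω → K w q) (g : ∀ w q, Ω → G w q) (V : ∀ q, Ω → 𝒱 q)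
    (tm : ∀ w, Ω → 𝒯 w) {h₁ h₂ z : ℝ} (hz : 0 ≤ z)
    (n1 : ∀ q < N, ∀ w < M, Det p (β (w + b) q) (bk w q) ∧ Det p (bk w q) (β w q))
    (n2 : ∀ w < M, ∀ q < N, Det p (β w (q + b')) (g w q) ∧ Det p (g w q) (β w q))
    (b1 : ∀ q < N, ∀ w < b, CH p (V q) (β w q) ≤ h₁)
    (b2 : ∀ w < M, ∀ q < b', CH p (tm w) (β w q) ≤ h₂) :
    ∃ bad : Finset (ℕ × ℕ), bad ⊆ range M ×ˢ range N ∧
      (bad.card : ℝ) * z ≤ N * (b * h₁) + M * (b' * h₂) ∧
      ∀ w < M, ∀ q < N, (w, q) ∉ bad → CH p (V q) (β w q) - CH p (V q) (bk w q) ≤ z ∧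
        CH p (tm w) (β w q) - CH p (tm w) (g w q) ≤ z := by
  obtain ⟨f₁, hf₁⟩ : ∃ f₁ : ℕ → ℕ → ℝ, ∀ w q, f₁ w q =
      CH p (V q) (β w q) - CH p (V q) (bk w q) := ⟨_, fun _ _ => rfl⟩
  obtain ⟨f₂, hf₂⟩ : ∃ f₂ : ℕ → ℕ → ℝ, ∀ w q, f₂ w q =
      CH p (tm w) (β w q) - CH p (tm w) (g w q) := ⟨_, fun _ _ => rfl⟩
  have p1 : ∀ w < M, ∀ q < N, 0 ≤ f₁ w q := fun w hw q hq => by
    rw [hf₁]
    exact sub_nonneg.2 (CH_mono_cond hp (n1 q hq w hw).2)
  have p2 : ∀ w < M, ∀ q < N, 0 ≤ f₂ w q := fun w hw q hq => by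
    rw [hf₂]
    exact sub_nonneg.2 (CH_mono_cond hp (n2 w hw q hq).2)
  have s1 : ∑ q ∈ range N, ∑ w ∈ range M, f₁ w q ≤ N * (b * h₁) := by
    calc ∑ q ∈ range N, ∑ w ∈ range M, f₁ w q ≤ ∑ _q ∈ range N, (b : ℝ) * h₁ := by
          refine Finset.sum_le_sum fun q hq => ?_
          have hq' := Finset.mem_range.1 hq
          simp only [hf₁]
          exact tel_step hp (V q) M b (fun w => β w q) (fun w => bk w q)
            (fun w hw => (n1 q hq' w hw).1) (b1 q hq')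
      _ = N * (b * h₁) := by rw [Finset.sum_const, Finset.card_range, nsmul_eq_mul]
  have s2 : ∑ w ∈ range M, ∑ q ∈ range N, f₂ w q ≤ M * (b' * h₂) := by
    calc ∑ w ∈ range M, ∑ q ∈ range N, f₂ w q ≤ ∑ _w ∈ range M, (b' : ℝ) * h₂ := by
          refine Finset.sum_le_sum fun w hw => ?_
          have hw' := Finset.mem_range.1 hw
          simp only [hf₂]
          exact tel_step hp (tm w) N b' (fun q => β w q) (fun q => g w q)
            (fun q hq => (n2 w hw' q hq).1) (b2 w hw')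
      _ = M * (b' * h₂) := by rw [Finset.sum_const, Finset.card_range, nsmul_eq_mul]
  have s3 : ∑ x ∈ range M ×ˢ range N, (f₁ x.1 x.2 + f₂ x.1 x.2) ≤
      N * (b * h₁) + M * (b' * h₂) := by
    rw [Finset.sum_product]
    have e1 : ∑ w ∈ range M, ∑ q ∈ range N, (f₁ w q + f₂ w q) =
        ∑ q ∈ range N, ∑ w ∈ range M, f₁ w q + ∑ w ∈ range M, ∑ q ∈ range N, f₂ w q := by
      rw [Finset.sum_comm (s := range N), ← Finset.sum_add_distrib]
      exact Finset.sum_congr rfl fun w _ => Finset.sum_add_distrib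
    linarith
  refine ⟨(range M ×ˢ range N).filter fun x => ¬ (f₁ x.1 x.2 ≤ z ∧ f₂ x.1 x.2 ≤ z),
    Finset.filter_subset _ _, ?_, ?_⟩
  · refine le_trans ?_ s3
    calc (((range M ×ˢ range N).filter fun x => ¬ (f₁ x.1 x.2 ≤ z ∧ f₂ x.1 x.2 ≤ z)).card : ℝ) * z
        = ∑ _x ∈ (range M ×ˢ range N).filter fun x => ¬ (f₁ x.1 x.2 ≤ z ∧ f₂ x.1 x.2 ≤ z), z := by
          rw [Finset.sum_const, nsmul_eq_mul]
      _ ≤ ∑ x ∈ (range M ×ˢ range N).filter fun x => ¬ (f₁ x.1 x.2 ≤ z ∧ f₂ x.1 x.2 ≤ z),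
          (f₁ x.1 x.2 + f₂ x.1 x.2) := by
          refine Finset.sum_le_sum fun x hx => ?_
          obtain ⟨hx1, hx2⟩ := Finset.mem_filter.1 hx
          obtain ⟨hw, hq⟩ := Finset.mem_product.1 hx1
          have a1 := p1 _ (Finset.mem_range.1 hw) _ (Finset.mem_range.1 hq)
          have a2 := p2 _ (Finset.mem_range.1 hw) _ (Finset.mem_range.1 hq)
          rcases not_and_or.1 hx2 with h | h
          · linarith [not_le.1 h]
          · linarith [not_le.1 h]
      _ ≤ _ := by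
          refine Finset.sum_le_sum_of_subset_of_nonneg (Finset.filter_subset _ _) fun x hx _ => ?_
          obtain ⟨hw, hq⟩ := Finset.mem_product.1 hx
          exact add_nonneg (p1 _ (Finset.mem_range.1 hw) _ (Finset.mem_range.1 hq))
            (p2 _ (Finset.mem_range.1 hw) _ (Finset.mem_range.1 hq))
  · intro w hw q hq hx
    have h1 : f₁ w q ≤ z ∧ f₂ w q ≤ z := by
      by_contra hcon
      exact hx (Finset.mem_filter.2 ⟨Finset.mem_product.2 ⟨Finset.mem_range.2 hw,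
        Finset.mem_range.2 hq⟩, hcon⟩)
    rw [hf₁, hf₂] at h1
    exact h1

end

end Pool.LIVE20
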